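import Pool.Agent.Q260.DS.Stm3
import Pool.Agent.Q210.DS.DU

/-!
# Project DS (helper260), job DP: the dual of WP data
-/

set_option autoImplicit false

namespace Pool.Agent.Q53.DS

open Complex Filter Topology Metric Set
open Pool.Agent.W169.HF H353.E H353.F Q240.GS Q240.OW Pool.Agent.Q260.DS
open scoped ComplexConjugate

lemma gaf_conj {m : ℕ} {N : ℝ} (hN : 0 < N) (μ : Fin m → ℂ) (s : ℂ) :
    gaf N (fun j => conj (μ j)) s = conj (gaf N μ (conj s)) := by
  unfold gaf
  rw [map_mul, map_prod, conj_cpow_real hN]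
  congr 1
  · congr 1
    rw [map_div₀, Complex.conj_conj, map_ofNat]
  · refine Finset.prod_congr rfl fun j _ => ?_
    rw [Pool.Agent.Q210.DS.conj_GR, map_sub, Complex.conj_conj]

lemma pp_conj (r : ℕ) (s : ℂ) : pp r s = conj (pp r (conj s)) := by
  unfold pp
  rw [map_pow, map_mul, map_sub, map_one, Complex.conj_conj]

theorem t_DP : S_DP := by
  intro m r B N μ X h
  have hN0 : 0 < N := by linarith [h.one_le]
  have e1 : ∀ s : ℂ, ‖gaf N (fun j => conj (μ j)) s‖ = ‖gaf N μ (conj s)‖ := fun s => by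
    rw [gaf_conj hN0, Complex.norm_conj]
  have e2 : ∀ s : ℂ, ‖pp r s‖ = ‖pp r (conj s)‖ := fun s => by
    rw [pp_conj, Complex.norm_conj]
  refine ⟨h.one_le, fun j => ?_, ⟨fun w => ?_, fun δ hδ => ?_⟩, ?_, fun s hs => ?_, fun s hs => ?_,
    fun s hs h0 => ?_⟩
  · rw [conj_re]
    exact h.re_le j
  · have h3 := (h.slow.1 (conj w)).hasDerivAt.conj_conj
    rw [Complex.conj_conj] at h3
    exact h3.differentiableAt
  · obtain ⟨K, hK, hb⟩ := h.slow.2 δ hδ
    refine ⟨K, hK, fun z => ?_⟩
    have h1 := hb (conj z)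
    rw [Complex.norm_conj] at h1
    rw [Complex.norm_conj]
    exact h1
  · obtain ⟨ε, hε, hfe⟩ := h.fe
    refine ⟨conj ε, by rw [Complex.norm_conj]; exact hε, fun s => ?_⟩
    have h1 := hfe (conj s)
    rw [Complex.conj_conj] at h1
    show conj (X (conj s)) = conj ε * conj (conj (X (conj (1 - conj s))))
    rw [h1, map_mul, Complex.conj_conj, Complex.conj_conj, map_sub, map_one, Complex.conj_conj]
  · rw [Complex.norm_conj, e1, e2]
    exact h.hi (conj s) (by rw [conj_re]; exact hs)
  · rw [Complex.norm_conj, e1, e2]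
    exact h.lo (conj s) (by rw [conj_re]; exact hs)
  · have h1 : X (conj s) = 0 := by
      have := congrArg conj h0
      simpa using this
    exact h.nz (conj s) (by rw [conj_re]; exact hs) h1

end Pool.Agent.Q53.DS
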