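import Pool.Agent.Q260.DS.Stm3
import Pool.Agent.Q210.DS.LZ

/-!
# Project DS (helper260), job LP: a zero free box gives the Lindelof bound, for the class WP
-/

set_option autoImplicit false

namespace Pool.Agent.Q53.DS

open Complex Filter Topology Metric Set
open Pool.Agent.W169.HF H353.E H353.F Q240.GS Q240.OW Pool.Agent.Q260.DS
open scoped ComplexConjugate

lemma fnP_zero {m r : ℕ} (hm : 1 ≤ m) {N : ℝ} {μ : Fin m → ℂ} (hN : 1 ≤ N)
    (hμ : ∀ j, (μ j).re ≤ 1 / 2) {X : ℂ → ℂ} {y : ℝ} {u : ℂ} :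
    fnP r N μ X y u = 0 ↔ X (1 / 2 + (y : ℂ) * I + u) = 0 := by
  unfold fnP
  have h1 := gpos hm hN hμ y
  have h0 := p0_pos r y
  have h2 : (((p0 r y * (‖gaf N μ (3 / 2 + y * I)‖ *
      Real.exp (-(gaD N μ (3 / 2 + y * I)).re)))⁻¹ : ℝ) : ℂ) ≠ 0 := by
    rw [ofReal_ne_zero]
    exact inv_ne_zero (mul_pos h0 h1).ne'
  rw [mul_eq_zero]
  constructor
  · rintro (h | h)
    · exact absurd h h2
    · exact h
  · exact Or.inr

/-- the polynomial factor on the critical line -/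
lemma pp_half (r : ℕ) (T : ℝ) :
    p0 r T * ‖(pp r (1 / 2 + (T : ℂ) * I))⁻¹‖ ≤ Real.exp (4 * r) := by
  have b1 : 1 / 2 ≤ ‖(1 / 2 + T * I : ℂ)‖ := by
    refine le_trans ?_ (abs_re_le_norm _)
    simp
  have b2 : 1 / 2 ≤ ‖(1 / 2 + T * I - 1 : ℂ)‖ := by
    refine le_trans ?_ (abs_re_le_norm _)
    have : (1 / 2 + (T : ℂ) * I - 1).re = -(1 / 2) := by
      simp
      norm_num
    rw [this, abs_neg, abs_of_pos (by norm_num)]
  have b3 : ‖(1 / 2 + T * I : ℂ) - (3 / 2 + T * I)‖ ≤ 1 := by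
    rw [show (1 / 2 + T * I : ℂ) - (3 / 2 + T * I) = -1 by ring, norm_neg, norm_one]
  have h1 := pp_ratio r (by norm_num) b1 b2 b3
  have h2 : 0 < ‖pp r (1 / 2 + (T : ℂ) * I)‖ := by
    refine norm_pos_iff.2 (pp_ne r (fun h => ?_) (fun h => ?_))
    · rw [h, norm_zero] at b1
      norm_num at b1
    · rw [h, sub_self, norm_zero] at b2
      norm_num at b2
  rw [norm_inv, mul_inv_le_iff₀ h2]
  unfold p0
  rw [mul_one] at h1
  exact h1

theorem t_LP : S_LP := by
  intro m r ε B hm hε hB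
  have hm' : (1 : ℝ) ≤ m := by exact_mod_cast hm
  have hr' : (0 : ℝ) ≤ r := Nat.cast_nonneg r
  obtain ⟨η, hη⟩ : ∃ η : ℝ, η = min ε 1 := ⟨_, rfl⟩
  have hη0 : 0 < η := by rw [hη]; exact lt_min hε one_pos
  have hη1 : η ≤ 1 := by rw [hη]; exact min_le_right _ _
  have hηε : η ≤ ε := by rw [hη]; exact min_le_left _ _
  obtain ⟨K, hK, hnd⟩ := ndP m r hm B hB
  obtain ⟨R, ℓ0, hR, HP⟩ := prof_all K (3 / 2) (η / 8) (η / 8) (η / 8) 1 hK (by norm_num) (by norm_num)
    (by linarith) (by linarith) (by linarith) (by linarith) (by linarith) le_rfl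
  refine ⟨η / 8, R, max 1 (max (2 * ℓ0 + 14 * m) ((200 * m + 8 * r) / η)), by linarith, by linarith,
    le_max_left _ _, ?_⟩
  intro N μ X h T hT hzf
  have hN := h.one_le
  have hN0 : 0 < N := by linarith
  have hT1 : 2 * ℓ0 + 14 * m ≤ Real.log (cnd N μ T) :=
    ((le_max_left _ _).trans (le_max_right _ _)).trans hT
  have hT2 : (200 * m + 8 * r) / η ≤ Real.log (cnd N μ T) :=
    ((le_max_right _ _).trans (le_max_right _ _)).trans hT
  rw [div_le_iff₀ hη0] at hT2
  have hL1 : 1 ≤ Real.log (cnd N μ T) := (le_max_left _ _).trans hT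
  obtain ⟨e1, e2⟩ := el_bd hN h.re_le T
  by_cases hs : ∀ j, (1 / 2 + (T : ℂ) * I) - μ j ≠ 0
  · have ND1 := hnd N μ X h T
    have P := HP (el N μ T) 1 (fnP r N μ X T) (by linarith) ND1.ud (fun u hu1 hu2 h0 => by
      rw [fnP_zero hm hN h.re_le] at h0
      have h1 := hzf _ h0 (by simp; linarith)
      have h2 : (1 / 2 + (T : ℂ) * I + u).im - T = u.im := by simp
      rw [h2] at h1
      linarith)
    have h0 := P.upp 0 (by simp) (by simp)
    rw [one_mul, zero_re, abs_zero, max_eq_right (by linarith)] at h0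
    have hgg : 0 < gg N μ T := gpos hm hN h.re_le T
    have hp0 := p0_pos r T
    have h1 : LQ r N μ X (1 / 2 + T * I) = ((p0 r T * gg N μ T : ℝ) : ℂ) * fnP r N μ X T 0 *
        (gaf N μ (1 / 2 + T * I))⁻¹ * (pp r (1 / 2 + T * I))⁻¹ := by
      unfold LQ
      rw [LL_eq hN0, XX_la hN]
      congr 2
      unfold fnP
      rw [add_zero, ← mul_assoc]
      have h2 : ((p0 r T * gg N μ T : ℝ) : ℂ) * (((p0 r T * (‖gaf N μ (3 / 2 + T * I)‖ *
          Real.exp (-(gaD N μ (3 / 2 + T * I)).re)))⁻¹ : ℝ) : ℂ) = 1 := by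
        rw [← ofReal_mul]
        have h3 : p0 r T * gg N μ T * (p0 r T * (‖gaf N μ (3 / 2 + T * I)‖ *
          Real.exp (-(gaD N μ (3 / 2 + T * I)).re)))⁻¹ = 1 :=
          mul_inv_cancel₀ (mul_pos hp0 hgg).ne'
        rw [h3, ofReal_one]
      rw [h2, one_mul]
    rw [h1, norm_mul, norm_mul, norm_mul, Complex.norm_real,
      Real.norm_of_nonneg (mul_pos hp0 hgg).le]
    have h3 := Pool.Agent.Q210.DS.gaf_half hm hN h.re_le T hs
    have h4 := pp_half r T
    calc p0 r T * gg N μ T * ‖fnP r N μ X T 0‖ * ‖(gaf N μ (1 / 2 + T * I))⁻¹‖ *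
          ‖(pp r (1 / 2 + T * I))⁻¹‖ =
        (gg N μ T * ‖(gaf N μ (1 / 2 + T * I))⁻¹‖) * (p0 r T * ‖(pp r (1 / 2 + T * I))⁻¹‖) *
          ‖fnP r N μ X T 0‖ := by ring
      _ ≤ Real.exp (135 * m) * Real.exp (4 * r) *
          Real.exp (el N μ T * (η / 8 + η / 8) + η / 8 * el N μ T) := by gcongr
      _ = Real.exp (135 * m + 4 * r + 3 * η / 8 * el N μ T) := by
          rw [← Real.exp_add, ← Real.exp_add]
          congr 1
          ring
      _ ≤ Real.exp (ε * Real.log (cnd N μ T)) := by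
          apply Real.exp_le_exp.2
          have h4 : η * Real.log (cnd N μ T) ≤ ε * Real.log (cnd N μ T) :=
            mul_le_mul_of_nonneg_right hηε (by linarith)
          have h5 : 3 * η / 8 * el N μ T ≤ 3 * η / 8 * ((Real.log (cnd N μ T) + 10 * m) / 2) := by
            apply mul_le_mul_of_nonneg_left _ (by linarith)
            linarith
          have h6 : η * m ≤ m := by nlinarith
          nlinarith
  · push Not at hs
    obtain ⟨j, hj⟩ := hs
    have h1 : LQ r N μ X (1 / 2 + T * I) = 0 := by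
      unfold LQ LL
      have h2 : ∏ j, (Gammaℝ (1 / 2 + T * I - μ j))⁻¹ = 0 := by
        refine Finset.prod_eq_zero (Finset.mem_univ j) ?_
        rw [hj, Gammaℝ_def, zero_div, Complex.Gamma_zero, mul_zero, inv_zero]
      rw [h2, mul_zero, zero_mul]
    rw [h1, norm_zero]
    exact (Real.exp_pos _).le

end Pool.Agent.Q53.DS
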